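import Pool.Agent.H13.SYA.PRQ

/-!
# Pairs from two primes, denominators `g 0` (PPX)
-/

set_option autoImplicit false

open MvPolynomial Pool.Agent.H2.ST Pool.Agent.H15.TG Pool.Agent.H19.SYA

namespace Pool.Agent.H17.SYA

open Pool.Agent.H13.SYA (nc_of_prime indep_of_det)

theorem pf_PPX (hAI : T_AI1) (hGN : T_GN4) : T_PPX := by
  intro k _ _ _ W H y w K g e ω l M r S hy hcs hS h0 h1
  have hcc : CC W K := hcs.toCC
  have hG : Gr W := hy.toGr
  have hp0 : Prime (g 0) := hcs.pg 0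
  have hp1 : Prime (g 1) := hcs.pg 1
  have hw0 : (0 : ℤ) < (ω 0 : ℤ) := hcc.ps _ _ (hcs.gK 0) (hcs.gw 0) (nc_of_prime hp0)
  have hw1 : (0 : ℤ) < (ω 1 : ℤ) := hcc.ps _ _ (hcs.gK 1) (hcs.gw 1) (nc_of_prime hp1)
  have hne : g 0 ≠ 0 := hp0.ne_zero
  have hr : (ω 1 : ℤ) + r = M * ω 0 := by
    have a1 : br (g 1) S ∈ W ((ω 1 : ℤ) + r) := hy.pbr _ _ _ _ (hcs.gw 1) hS
    have a2 : (g 0) ^ M ∈ W (M • (ω 0 : ℤ)) := pow_mem_gr hG (hcs.gw 0) M
    rw [h1] at a1
    have a3 := wt_uniq hG a1 a2 (pow_ne_zero M hne)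
    rw [a3, nsmul_eq_mul]
  have hai : AlgebraicIndependent k ![g 0, g 1] := by
    refine indep_of_det hAI k ![ad H, ad S] ![g 0, g 1] ?_
    have b1 : ad H (g 0) = -((((ω 0 : ℕ) : ℤ) : k) • g 0) := by
      rw [ad_apply, br_anti, hy.HE _ _ (hcs.gw 0)]
    have b2 : ad S (g 1) = -((g 0) ^ M) := by
      rw [ad_apply, br_anti, h1]
    have b3 : ad S (g 0) = 0 := by
      rw [ad_apply, br_anti, h0, neg_zero]
    change ad H (g 0) * ad S (g 1) - ad H (g 1) * ad S (g 0) ≠ 0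
    rw [b1, b2, b3, mul_zero, sub_zero, neg_mul_neg]
    refine mul_ne_zero (smul_ne_zero ?_ hp0.ne_zero) (pow_ne_zero M hne)
    exact Int.cast_ne_zero.2 hw0.ne'
  have hCp : Cp W (g 0) (g 1) (ω 0) (ω 1) :=
    { hp := hcs.gw 0
      hq := hcs.gw 1
      pa := hw0
      pb := hw1
      lp := hcc.ln _ (hcs.gK 0)
      lq := hcc.ln _ (hcs.gK 1)
      pq := hcc.cm _ (hcs.gK 0) _ (hcs.gK 1)
      ai := hai }
  have hgen : ∀ F : Pol k 2, ∃ (N : ℕ) (P : MvPolynomial (Fin 4) k),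
      (g 0) ^ N * F = aeval ![g 0, g 1, H, S] P := by
    intro F
    obtain ⟨N, hN⟩ := hGN k W H y w K (g 0) (g 1) (g 0) S (ω 0) (ω 1) r M hy hcc hCp
      (hcs.gK 0) (hcs.gK 1) (hcs.gK 0) (dvd_refl _) hne hS h0 h1 F
    have c1 : Algebra.adjoin k ((K : Set (Pol k 2)) ∪ {H, S}) ≤
        Algebra.adjoin k (Set.range ![g 0, g 1, H, S]) := by
      rw [Algebra.adjoin_le_iff]
      rintro x (hx | hx | hx)
      · have c2 := hcs.gen x hx
        refine Algebra.adjoin_mono ?_ c2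
        rintro z ⟨i, rfl⟩
        fin_cases i
        · exact ⟨0, rfl⟩
        · exact ⟨1, rfl⟩
      · rw [hx]
        exact Algebra.subset_adjoin ⟨2, rfl⟩
      · rw [Set.mem_singleton_iff.1 hx]
        exact Algebra.subset_adjoin ⟨3, rfl⟩
    have c3 := c1 hN
    rw [Algebra.adjoin_range_eq_range_aeval] at c3
    obtain ⟨P, hP⟩ := c3
    exact ⟨N, P, hP.symm⟩
  exact
    { pg := hp0
      hg := hcs.gw 0
      hf := hcs.gw 1
      pa := hw0
      pb := hw1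
      lg := hcc.ln _ (hcs.gK 0)
      lf := hcc.ln _ (hcs.gK 1)
      gf := hcc.cm _ (hcs.gK 0) _ (hcs.gK 1)
      nd := hcs.na 0 1 (by decide)
      hS := by
        have d1 : (M : ℤ) * (ω 0 : ℤ) + ((0 : ℕ) : ℤ) * ω 1 - ω 1 = r := by
          rw [← hr]
          push_cast
          ring
        rw [d1]
        exact hS
      pS := h0
      qS := by rw [h1, pow_zero, mul_one]
      gen := by
        intro F
        obtain ⟨N, P, hP⟩ := hgen F
        refine ⟨N, X 1 ^ N * P, ?_⟩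
        rw [map_mul, map_pow, aeval_X, ← hP, mul_pow]
        change g 0 ^ N * g 1 ^ N * F = g 1 ^ N * (g 0 ^ N * F)
        ring
      cop := by
        obtain ⟨c, hc⟩ := hcs.one
        rw [Fin.sum_univ_two] at hc
        exact ⟨c 0, c 1, hc⟩
      ge1 := hgen }

end Pool.Agent.H17.SYA
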