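import Pool.Agent.H19.SYA.TA
import Pool.Agent.H2.ST.Basic2

/-!
# Three elements of the centralizer are dependent (TR2)
-/

set_option autoImplicit false

open MvPolynomial Pool.Agent.H2.ST Pool.Agent.H15.TG Pool.Agent.H19.SYA

namespace Pool.Agent.H17.SYA

theorem pf_TR2 (hAI : T_AI1) : T_TR2 := by
  intro k _ _ _ W H y w p q s α β n hy hc hs f hf hai
  have hp0 : p ≠ 0 := by
    intro h
    have := hc.ai.ne_zero 0
    exact this h
  have h1 : Imod k (⊥ : Ideal (Pol k 2)) f := by
    intro P hP
    rw [Ideal.mem_bot] at hP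
    exact (algebraicIndependent_iff.1 hai) P hP
  have h2 := hAI k (Pol k 2) (Fin 3) (Fin 2) ⊥ f ![H, s] ![ad p, ad q]
    Ideal.isPrime_bot (fun i x hx => by
      rw [Ideal.mem_bot] at hx ⊢
      rw [hx, map_zero]) (fun i j => by
      rw [Ideal.mem_bot]
      fin_cases i
      · change ad p (f j) = 0
        rw [ad_apply]
        exact (hf j).1
      · change ad q (f j) = 0
        rw [ad_apply]
        exact (hf j).2) (by
      rw [Ideal.mem_bot, Matrix.det_fin_two]
      change ¬ (ad p H * ad q s - ad p s * ad q H = 0)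
      rw [ad_apply, ad_apply, ad_apply, ad_apply, hs.ps, zero_mul, sub_zero, hy.HE _ _ hc.hp]
      refine mul_ne_zero (smul_ne_zero ?_ hp0) hs.qs
      exact Int.cast_ne_zero.2 hc.pa.ne') h1
  have h3 : AlgebraicIndependent k (Sum.elim f ![H, s]) := by
    rw [algebraicIndependent_iff]
    intro P hP
    exact h2 P (by rw [Ideal.mem_bot]; exact hP)
  have h4 := h3.lift_cardinalMk_le_trdeg
  rw [MvPolynomial.trdeg_of_isDomain] at h4
  simp at h4
  norm_num at h4

end Pool.Agent.H17.SYA
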